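import Pool.Agent.H41.AUG.Stmts

/-!
Forced rows (helper41, AUG-FORCE).
-/

set_option autoImplicit false

namespace Pool.Agent.H100.AUG

open Pool.Agent.H41.AUG Finset

/-- the arcs of the exchange digraph -/
def Arc {n : ℕ} (A : Finset (Cell n)) (f : Equiv.Perm (Fin n)) (x y : Fin n) : Prop :=
  x ≠ y ∧ (x, f y) ∈ A

/-- the row `s` is forced -/
def Forced {n : ℕ} (A : Finset (Cell n)) (f : Equiv.Perm (Fin n)) (s : Fin n) : Prop :=
  ∀ g : Equiv.Perm (Fin n), gr g ⊆ A → g s = f s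

/-- closed under out-arcs -/
def OutC {n : ℕ} (A : Finset (Cell n)) (f : Equiv.Perm (Fin n)) (Z : Finset (Fin n)) : Prop :=
  ∀ x ∈ Z, ∀ y, Arc A f x y → y ∈ Z

/-- closed under in-arcs -/
def InC {n : ℕ} (A : Finset (Cell n)) (f : Equiv.Perm (Fin n)) (Z : Finset (Fin n)) : Prop :=
  ∀ y ∈ Z, ∀ x, Arc A f x y → x ∈ Z

theorem gr_mem {n : ℕ} (f : Equiv.Perm (Fin n)) {A : Finset (Cell n)} (h : gr f ⊆ A) (x : Fin n) :
    (x, f x) ∈ A := h (by unfold gr; exact mem_image.mpr ⟨x, mem_univ _, rfl⟩)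

theorem hall {n : ℕ} (A : Finset (Cell n)) (f : Equiv.Perm (Fin n)) (hf : gr f ⊆ A) (s : Fin n)
    (hs : Forced A f s) :
    ∃ Z : Finset (Fin n), s ∈ Z ∧ ∀ x ∈ Z, ∀ y, Arc A f x y → y ∈ Z ∧ y ≠ s := by
  classical
  set t : Fin n → Finset (Fin n) := fun x => univ.filter fun y => Arc A f x y ∨ (y = x ∧ x ≠ s) with ht
  by_cases hH : ∀ Z : Finset (Fin n), Z.card ≤ (Z.biUnion t).card
  · exfalso
    obtain ⟨p, hp, hpt⟩ := (Finset.all_card_le_biUnion_card_iff_exists_injective t).mp hH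
    have hb : Function.Bijective p := Finite.injective_iff_bijective.mp hp
    set g : Equiv.Perm (Fin n) := (Equiv.ofBijective p hb).trans f with hg
    have hgx : ∀ x, g x = f (p x) := fun x => rfl
    have hgA : gr g ⊆ A := by
      intro c hc
      unfold gr at hc
      obtain ⟨x, -, rfl⟩ := mem_image.mp hc
      rw [hgx]
      rcases (mem_filter.mp (hpt x)).2 with h | h
      · exact h.2
      · rw [h.1]; exact gr_mem f hf x
    have h1 : p s = s := f.injective (by rw [← hgx]; exact hs g hgA)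
    have h2 := (mem_filter.mp (hpt s)).2
    rw [h1] at h2
    rcases h2 with h | h
    · exact h.1 rfl
    · exact h.2 rfl
  · push Not at hH
    obtain ⟨Z, hZ⟩ := hH
    have hsub : Z.erase s ⊆ Z.biUnion t := by
      intro x hx
      obtain ⟨hxs, hxZ⟩ := mem_erase.mp hx
      exact mem_biUnion.mpr ⟨x, hxZ, mem_filter.mpr ⟨mem_univ _, Or.inr ⟨rfl, hxs⟩⟩⟩
    have hsZ : s ∈ Z := by
      by_contra hcon
      rw [erase_eq_of_notMem hcon] at hsub
      exact absurd (card_le_card hsub) (by omega)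
    have heq : Z.erase s = Z.biUnion t := by
      refine eq_of_subset_of_card_le hsub ?_
      rw [card_erase_of_mem hsZ]
      omega
    refine ⟨Z, hsZ, fun x hx y hxy => ?_⟩
    have h1 : y ∈ Z.erase s := by
      rw [heq]
      exact mem_biUnion.mpr ⟨x, hx, mem_filter.mpr ⟨mem_univ _, Or.inl hxy⟩⟩
    exact ⟨(mem_erase.mp h1).2, (mem_erase.mp h1).1⟩

/-- a row with two cells has an out-arc -/
theorem exists_out {n : ℕ} (A : Finset (Cell n)) (f : Equiv.Perm (Fin n)) {δ : ℕ} (hδ : 2 ≤ δ)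
    (hr : RowGe A δ) (s : Fin n) : ∃ y, Arc A f s y := by
  classical
  have h1 : 1 < (A.filter fun p => p.1 = s).card := lt_of_lt_of_le (by omega) (hr s)
  obtain ⟨p, hp, hne⟩ := exists_mem_ne h1 (s, f s)
  obtain ⟨hpA, hps⟩ := mem_filter.mp hp
  refine ⟨f.symm p.2, ?_, ?_⟩
  · intro h
    apply hne
    have h2 : f s = p.2 := by rw [h]; simp
    exact Prod.ext hps h2.symm
  · rw [Equiv.apply_symm_apply]
    have : (s, p.2) = p := Prod.ext hps.symm rfl
    rw [this]; exact hpA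

/-- a column with two cells has an in-arc -/
theorem exists_in {n : ℕ} (A : Finset (Cell n)) (f : Equiv.Perm (Fin n)) {δ : ℕ} (hδ : 2 ≤ δ)
    (hc : ColGe A δ) (s : Fin n) : ∃ x, Arc A f x s := by
  classical
  have h1 : 1 < (A.filter fun p => p.2 = f s).card := lt_of_lt_of_le (by omega) (hc (f s))
  obtain ⟨p, hp, hne⟩ := exists_mem_ne h1 (s, f s)
  obtain ⟨hpA, hps⟩ := mem_filter.mp hp
  refine ⟨p.1, ?_, ?_⟩
  · intro h
    exact hne (Prod.ext h hps)
  · have : (p.1, f s) = p := Prod.ext rfl hps.symm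
    rw [this]; exact hpA

theorem card_out {n : ℕ} (A : Finset (Cell n)) (f : Equiv.Perm (Fin n)) {δ : ℕ}
    (hr : RowGe A δ) (O : Finset (Fin n)) (hO : OutC A f O) {x : Fin n} (hx : x ∈ O) :
    δ ≤ O.card := by
  classical
  refine (hr x).trans ?_
  refine card_le_card_of_injOn (fun p => f.symm p.2) ?_ ?_
  · intro p hp
    obtain ⟨hpA, hpx⟩ := mem_filter.mp (mem_coe.mp hp)
    rw [mem_coe]
    show f.symm p.2 ∈ O
    by_cases h : x = f.symm p.2
    · rw [← h]; exact hx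
    · refine hO x hx _ ⟨h, ?_⟩
      rw [Equiv.apply_symm_apply]
      have : (x, p.2) = p := Prod.ext hpx.symm rfl
      rw [this]; exact hpA
  · intro p hp q hq hpq
    have h1 := (mem_filter.mp (mem_coe.mp hp)).2
    have h2 := (mem_filter.mp (mem_coe.mp hq)).2
    exact Prod.ext (h1.trans h2.symm) (f.symm.injective hpq)

theorem card_in {n : ℕ} (A : Finset (Cell n)) (f : Equiv.Perm (Fin n)) {δ : ℕ}
    (hc : ColGe A δ) (I : Finset (Fin n)) (hI : InC A f I) {y : Fin n} (hy : y ∈ I) :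
    δ ≤ I.card := by
  classical
  refine (hc (f y)).trans ?_
  refine card_le_card_of_injOn (fun p => p.1) ?_ ?_
  · intro p hp
    obtain ⟨hpA, hpx⟩ := mem_filter.mp (mem_coe.mp hp)
    rw [mem_coe]
    show p.1 ∈ I
    by_cases h : p.1 = y
    · rw [h]; exact hy
    · refine hI y hy _ ⟨h, ?_⟩
      have : (p.1, f y) = p := Prod.ext rfl hpx.symm
      rw [this]; exact hpA
  · intro p hp q hq hpq
    have h1 := (mem_filter.mp (mem_coe.mp hp)).2
    have h2 := (mem_filter.mp (mem_coe.mp hq)).2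
    exact Prod.ext hpq (h1.trans h2.symm)

/-- Forced rows, `δ ≥ 2`. -/
theorem force2 (n δ : ℕ) (A : Finset (Cell n)) (f : Equiv.Perm (Fin n)) (hδ : 2 ≤ δ)
    (hf : gr f ⊆ A) (hr : RowGe A δ) (hc : ColGe A δ) (Φ : Finset (Fin n)) (hΦ : Φ.Nonempty)
    (h : ∀ s ∈ Φ, ∀ g : Equiv.Perm (Fin n), gr g ⊆ A → g s = f s) : Φ.card + 2 * δ ≤ n := by
  classical
  obtain ⟨s, hs⟩ := hΦ
  obtain ⟨Z, hsZ, hZ⟩ := hall A f hf s (h s hs)
  -- the out-closed part
  have hex1 : (univ.filter fun O : Finset (Fin n) => O.Nonempty ∧ O ⊆ Z ∧ OutC A f O).Nonempty :=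
    ⟨Z, mem_filter.mpr ⟨mem_univ _, ⟨s, hsZ⟩, Subset.refl _, fun x hx y hxy => (hZ x hx y hxy).1⟩⟩
  obtain ⟨O, hO, hOmin⟩ := exists_min_image _ Finset.card hex1
  obtain ⟨-, hOne, hOZ, hOc⟩ := mem_filter.mp hO
  have hOΦ : ∀ s' ∈ Φ, s' ∉ O := by
    intro s' hs' hmem
    obtain ⟨Z', hsZ', hZ'⟩ := hall A f hf s' (h s' hs')
    obtain ⟨y, hy⟩ := exists_out A f hδ hr s'
    have h1 : O ∩ Z'.erase s' ∈
        univ.filter fun O : Finset (Fin n) => O.Nonempty ∧ O ⊆ Z ∧ OutC A f O := by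
      refine mem_filter.mpr ⟨mem_univ _, ⟨y, mem_inter.mpr ⟨hOc s' hmem y hy, ?_⟩⟩,
        inter_subset_left.trans hOZ, ?_⟩
      · exact mem_erase.mpr ⟨(hZ' s' hsZ' y hy).2, (hZ' s' hsZ' y hy).1⟩
      · intro x hx z hxz
        obtain ⟨hx1, hx2⟩ := mem_inter.mp hx
        have h3 := hZ' x (mem_erase.mp hx2).2 z hxz
        exact mem_inter.mpr ⟨hOc x hx1 z hxz, mem_erase.mpr ⟨h3.2, h3.1⟩⟩
    have h2 := hOmin _ h1
    have h3 : (O ∩ Z'.erase s').card < O.card := by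
      refine card_lt_card ⟨inter_subset_left, fun hcon => ?_⟩
      have := mem_inter.mp (hcon hmem)
      exact (mem_erase.mp this.2).1 rfl
    omega
  -- the in-closed part
  obtain ⟨x0, hx0⟩ := exists_in A f hδ hc s
  have hx0Z : x0 ∉ Z := fun hcon => (hZ x0 hcon s hx0).2 rfl
  have hex2 : (univ.filter fun I : Finset (Fin n) => I.Nonempty ∧ I ⊆ Zᶜ ∧ InC A f I).Nonempty := by
    refine ⟨Zᶜ, mem_filter.mpr ⟨mem_univ _, ⟨x0, mem_compl.mpr hx0Z⟩, Subset.refl _, ?_⟩⟩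
    intro y hy x hxy
    rw [mem_compl] at hy ⊢
    exact fun hcon => hy (hZ x hcon y hxy).1
  obtain ⟨I, hI, hImin⟩ := exists_min_image _ Finset.card hex2
  obtain ⟨-, hIne, hIZ, hIc⟩ := mem_filter.mp hI
  have hIΦ : ∀ s' ∈ Φ, s' ∉ I := by
    intro s' hs' hmem
    obtain ⟨Z', hsZ', hZ'⟩ := hall A f hf s' (h s' hs')
    obtain ⟨x, hx⟩ := exists_in A f hδ hc s'
    have hxZ' : x ∉ Z' := fun hcon => (hZ' x hcon s' hx).2 rfl
    have h1 : I ∩ Z'ᶜ ∈
        univ.filter fun I : Finset (Fin n) => I.Nonempty ∧ I ⊆ Zᶜ ∧ InC A f I := by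
      refine mem_filter.mpr ⟨mem_univ _, ⟨x, mem_inter.mpr ⟨hIc s' hmem x hx, mem_compl.mpr hxZ'⟩⟩,
        inter_subset_left.trans hIZ, ?_⟩
      intro y hy z hzy
      obtain ⟨hy1, hy2⟩ := mem_inter.mp hy
      refine mem_inter.mpr ⟨hIc y hy1 z hzy, ?_⟩
      rw [mem_compl] at hy2 ⊢
      exact fun hcon => hy2 (hZ' z hcon y hzy).1
    have h2 := hImin _ h1
    have h3 : (I ∩ Z'ᶜ).card < I.card := by
      refine card_lt_card ⟨inter_subset_left, fun hcon => ?_⟩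
      have := mem_inter.mp (hcon hmem)
      exact (mem_compl.mp this.2) hsZ'
    omega
  obtain ⟨o, ho⟩ := hOne
  obtain ⟨i, hi⟩ := hIne
  have hOδ := card_out A f hr O hOc ho
  have hIδ := card_in A f hc I hIc hi
  have hd1 : Disjoint O I := by
    rw [disjoint_left]
    intro x hx hx'
    exact (mem_compl.mp (hIZ hx')) (hOZ hx)
  have hd2 : Disjoint Φ (O ∪ I) := by
    rw [disjoint_left]
    intro x hx hx'
    rcases mem_union.mp hx' with h1 | h1
    · exact hOΦ x hx h1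
    · exact hIΦ x hx h1
  have hcard : (Φ ∪ (O ∪ I)).card ≤ n := by
    have := card_le_univ (Φ ∪ (O ∪ I))
    rwa [Fintype.card_fin] at this
  rw [card_union_of_disjoint hd2, card_union_of_disjoint hd1] at hcard
  omega

/-- Forced rows: `δ ≥ 2` (the case `δ = 1` of `S_FORCE` is false), and `Φ.card ≤ n` always. -/
theorem force' : ∀ (n δ : ℕ) (A : Finset (Cell n)) (f : Equiv.Perm (Fin n)), δ ≠ 1 →
    gr f ⊆ A → RowGe A δ → ColGe A δ → ∀ Φ : Finset (Fin n), Φ.Nonempty →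
    (∀ s ∈ Φ, ∀ g : Equiv.Perm (Fin n), gr g ⊆ A → g s = f s) → Φ.card + 2 * δ ≤ n := by
  intro n δ A f hδ hf hr hc Φ hΦ h
  rcases Nat.lt_or_ge δ 2 with h2 | h2
  · have h0 : δ = 0 := by omega
    subst h0
    have := card_le_univ Φ
    rw [Fintype.card_fin] at this
    omega
  · exact force2 n δ A f h2 hf hr hc Φ hΦ h

/-- the statement `S_FORCE` is false (`δ = 1`, `n = 1`) -/
theorem not_S_FORCE : ¬ S_FORCE := by
  intro h
  have h1 := h 1 1 univ 1 (subset_univ _) (fun s => ?_) (fun c => ?_) univ ⟨0, mem_univ _⟩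
    (fun s _ g _ => Subsingleton.elim _ _)
  · simp at h1
  · refine Finset.card_pos.mpr ⟨(s, 0), mem_filter.mpr ⟨mem_univ _, rfl⟩⟩
  · refine Finset.card_pos.mpr ⟨(0, c), mem_filter.mpr ⟨mem_univ _, rfl⟩⟩

end Pool.Agent.H100.AUG
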